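import Pool.Agent.T6.H36.BNTate

/-!
# The Tate conjecture for abelian varieties over number fields with one Galois element whose
characteristic polynomial modulo `l` has binary factors

Let `A` be an abelian variety of dimension `g` over a number field `K` whose `ℓ`-adic monodromy group is
connected (`IsConnectedMonodromy`; this holds after a finite extension of `K`), and let `l` be a prime
number. If some element of the absolute Galois group of `K` acts on the group `A[l]` of the points
of order `l` with a characteristic polynomial that is a product of irreducible polynomials whose
degrees are different powers `2 ^ (k + 1)` of two, then **the Tate conjecture is true for all powers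
`A ^ n`**, in all codimensions, for all prime numbers `ℓ`, and over all finite extensions of `K`: all Tate
classes are linear combinations of intersections of divisors.

For every `g` such characteristic polynomials exist: write `g = ∑ 2 ^ k` in the binary system. For
example, if the dimension of `A` is a power `2 ^ j` of two then the condition is that the
characteristic polynomial of one element of the Galois group on `A[l]` is irreducible. By the theorem of
Chebotarev this is the case if and only if for some place `v` of good reduction, prime to `l`, the
characteristic polynomial of the Frobenius endomorphism of the reduction modulo `v` is irreducible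
modulo `l`. So for an `A` of dimension `2 ^ j` with connected monodromy the Tate conjecture for all
powers of `A` follows from the irreducibility of one such polynomial modulo one prime number. There is
no assumption on the endomorphisms of `A`, on the places of bad reduction, on the Newton polygon or on
the size of the image of the Galois group. For instance, an abelian variety of dimension four that
satisfies the condition is not of the type of Mumford.

`V` is the rational `ℓ`-adic Tate module, with the action `ρ` of the absolute Galois group `GK K` of
`K`; `χ` is the cyclotomic character and `ω` the Weil pairing; `τ` is the action of the Galois
group on `A[l]` (`IsAbelianVariety`; the Frobenius elements `IsFrob v s` are those of the library,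
and the theorem of Chebotarev is proved there). The cohomology of `A ^ n` consists of the alternating
forms on `V ^ n`; a Tate class is a form that is fixed by a subgroup of finite index of the Galois
group. The classes of cycles of codimension `m` are given by a set `C n m`; what is used is that the
Tate classes of degree two are combinations of classes of divisors (Faltings) and that intersections of
divisors are algebraic cycles (`IsCycleClasses`).

The idea of the proof. By the theorem of Chebotarev there are places `v` with a Frobenius element that
acts on `A[l]` like the given element. Modulo `l` the roots of its characteristic polynomial `P` are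
simple; so the roots `α` of `P` are in the ring of the Witt vectors of the algebraic closure of the field
with `l` elements, and the Frobenius automorphism of this ring permutes them with cycles of the lengths
`2 ^ (k + 1)`. The multiplicative relations between the numbers `α / ᾱ` are a representation of this
cyclic group over `ℚ` which is a part of a sum of irreducible representations, one for each cycle,
that are not isomorphic. So, if there is a nontrivial relation, then for one of the cycles all numbers
`α / ᾱ` are roots of unity (`BN.symm`), and then the determinant of `ρ(s) ^ (2 N) - χ(s) ^ N` is zero at
this Frobenius element, for `N = (4 g)!`. If this were so for all choices of `v`, then, because the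
Frobenius elements are dense, this polynomial in the entries of `ρ(s)` would vanish on a coset of a
subgroup of finite index, and, because the monodromy is connected, on the whole group. But close to
`1` there are Frobenius elements of places `v` of degree one, and at those an eigenvalue of the form
`ζ √p` together with `- ζ √p` would be an eigenvalue, which is not the case close to `1` (`BN.ff_ne`). So
for some `v` there are no relations, and the Tate classes are generated in degree two.
-/

set_option autoImplicit false

namespace Pool.Agent.Results.MP_90d181_ag.BinaryFactors

open NumberField Pool.Agent.W401.Cheb Pool.Agent.H204R3.GP Pool.Agent.T6.H36.NF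
  Pool.Agent.T6.H36.BN

/-- **The Tate conjecture for the powers of abelian varieties over number fields with connected
monodromy and one Galois element whose characteristic polynomial on the points of order `l` is a
product of irreducible polynomials of different degrees `2 ^ (k + 1)`.** -/
theorem result {K : Type} [Field K] [NumberField K] {ℓ l : ℕ} [Fact ℓ.Prime] [Fact l.Prime]
    {V M : Type} [AddCommGroup V] [Module ℚ_[ℓ] V] [FiniteDimensional ℚ_[ℓ] V]
    [AddCommGroup M] [Module (ZMod l) M] [FiniteDimensional (ZMod l) M]
    {ρ : Representation ℚ_[ℓ] (GK K) V} {χ : GK K →* ℚ_[ℓ]}
    {ω : V →ₗ[ℚ_[ℓ]] V →ₗ[ℚ_[ℓ]] ℚ_[ℓ]} {τ : Representation (ZMod l) (GK K) M}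
    (hA : IsAbelianVariety ρ χ ω τ) (hc : IsContinuousRep ρ χ) (hconn : IsConnectedMonodromy ρ)
    {σ : GK K} (hσ : HasBinaryFactors (τ σ).charpoly)
    {D : ∀ n : ℕ, Set ((Fin n → V) [⋀^Fin 2]→ₗ[ℚ_[ℓ]] ℚ_[ℓ])}
    {C : ∀ n m : ℕ, Set ((Fin n → V) [⋀^Fin m × Fin 2]→ₗ[ℚ_[ℓ]] ℚ_[ℓ])}
    (hC : IsCycleClasses ρ χ D C) (n m : ℕ) (f : (Fin n → V) [⋀^Fin m × Fin 2]→ₗ[ℚ_[ℓ]] ℚ_[ℓ])
    (hf : IsTateClass ρ χ m f) : f ∈ Submodule.span ℚ_[ℓ] (C n m) :=
  tate hA hc hconn hσ hC n m f hf

end Pool.Agent.Results.MP_90d181_ag.BinaryFactors
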