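import Pool.Agent.T6.H22.DI.NF
import Pool.Agent.T6.H22.DI.NFDefs

/-!
# The Tate conjecture for the powers of abelian varieties over number fields with one Frobenius element
whose eigenvalues generate CM fields with isolated residue degrees

Let `A` be an abelian variety over a number field, of any dimension `g` and with arbitrary endomorphisms,
which has good reduction at some place `v`, with a residue field of `p ^ a` elements. Suppose that the
characteristic polynomial of the Frobenius element at `v` is the product of the minimal polynomials of
Weil numbers `π i` that generate CM fields `K i`; so `2 g = ∑ i, [K i : ℚ]`. The slopes of the Weil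
numbers are arbitrary, up to the assumption that the reduction has no supersingular factor
(`IsWeilFamily`).

We say that a prime number `l` has an isolated residue degree in `K` (`IsIsolated l k K`) if it is
unramified in `K` and exactly one prime ideal over `l` has a residue degree divisible by `2 ^ (k + 1)`, and
this residue degree is `2 ^ (k + 1)`. For instance (`k = 0`) exactly one of the residue degrees is even,
and this one is two; or `l` is inert in `K` and the degree of `K` is `2 ^ (k + 1)`.

**Theorem.** Suppose that the fields `K i` can be ordered such that for each of them some prime number
`l` has an isolated residue degree `2 ^ (k + 1)` in it, and each of the previous fields `K j` has degree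
smaller than `2 ^ (k + 1)`, or `l` is unramified in `K j` and has no residue degree divisible by
`2 ^ (k + 1)` there (`IsIsolatedTower`). Then **the Tate conjecture is true for all powers `A ^ n`**, in all
codimensions, for all prime numbers `ℓ`, and over all finite extensions: all Tate classes are linear
combinations of intersections of divisors.

If there is only one field `K`, so that the characteristic polynomial `P` of the Frobenius element at `v` is
irreducible, this is a condition which can be checked with a computer for a given abelian variety: if
`P` modulo `l` has no multiple factors then the residue degrees of `l` in `K` are the degrees of the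
irreducible factors of `P` modulo `l`. So it suffices that `P` modulo `l` is the product of different
irreducible polynomials, exactly one of which has a degree divisible by `2 ^ (k + 1)`, and this degree is
`2 ^ (k + 1)`. By the theorem of Chebotarev there are such `l` for all CM fields `K` whose Galois group is
as large as possible, in any degree `2 g`, and also for all products of powers of such abelian varieties
if the Galois closures of the fields are linearly disjoint.

In the formal statement `V` is the rational Tate module with the action `ρ` of the Galois group and
the Weil pairing `ω` of a polarization (`IsTateModule`; with the semisimplicity theorem of Faltings),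
`χ` is the cyclotomic character. The cohomology of `A ^ n` consists of the alternating forms on
`V ^ n`; a Tate class is a form that is fixed by a subgroup of finite index of the Galois group. The
classes of cycles of codimension `m` are given by a set `C n m`; what is used is that the Tate classes
of degree two are combinations of classes of divisors (Faltings) and that intersections of divisors
are algebraic cycles (`IsCycleClasses`). That the absence of relations between the conjugates of the
Weil numbers of one Frobenius element implies that the Tate classes are generated in degree two was
formalized before (starting files); new is that there are no such relations if the fields have isolated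
residue degrees.

The idea of the proof. Some automorphism `σ` of `ℂ` induces a Frobenius automorphism at a place above
`l`. The embeddings of `K i` that belong to the isolated prime ideal form one cycle `O` of length
`2 ^ (k + 1)` of `σ`, stable under the complex conjugation, which is `σ ^ (2 ^ k)` there; and for a
suitable odd number `M` the automorphism `σ ^ (2 ^ k M)` is trivial on all other embeddings of `K i` and
of the fields `K j` (`DI.exists_sigma`). So the part of a multiplicative relation on `O` is a relation.
The relations on `O` are a module over `ℤ[x] / (x ^ (2 ^ k) + 1)` where `x` operates as `σ`, and the ideal
generated by a nonzero element of this ring, the ring of the integers of a cyclotomic field, contains a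
nonzero integer. So the exponents of the relation are symmetric on `O`, as the numbers `α / ᾱ` are no
roots of unity; and this holds also for all conjugates of the relation (`DI.dichotomy`).
-/

set_option autoImplicit false

namespace Pool.Agent.Results.MP_90d181_ag.IsolatedResidueDegrees

open NumberField Pool.Agent.H204R3.GP Pool.Agent.TH170 Pool.Agent.T6.H22.DI

/-- **The Tate conjecture for the powers of abelian varieties over number fields with one Frobenius
element whose eigenvalues generate CM fields with isolated residue degrees.** -/
theorem result (p a : ℕ) [Fact p.Prime] {I : Type} [Fintype I] (K : I → Type)
    [∀ i, Field (K i)] [∀ i, NumberField (K i)] [∀ i, IsCMField (K i)] (π : ∀ i, K i)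
    (hπ : IsWeilFamily p a π) (hK : IsIsolatedTower K Set.univ) (ℓ : ℕ) [Fact ℓ.Prime]
    {V Γ : Type} [AddCommGroup V] [Module ℚ_[ℓ] V] [FiniteDimensional ℚ_[ℓ] V] [Group Γ]
    {ρ : Representation ℚ_[ℓ] Γ V} {χ : Γ →* ℚ_[ℓ]} {ω : V →ₗ[ℚ_[ℓ]] V →ₗ[ℚ_[ℓ]] ℚ_[ℓ]}
    {D : ∀ n : ℕ, Set ((Fin n → V) [⋀^Fin 2]→ₗ[ℚ_[ℓ]] ℚ_[ℓ])}
    {C : ∀ n m : ℕ, Set ((Fin n → V) [⋀^Fin m × Fin 2]→ₗ[ℚ_[ℓ]] ℚ_[ℓ])}
    (hA : FT.IsTateModule ρ χ ω) (hC : FT.IsCycleClasses ρ χ D C)
    (hF : FT.HasFrobenius ρ χ p a π) (n m : ℕ)
    (f : (Fin n → V) [⋀^Fin m × Fin 2]→ₗ[ℚ_[ℓ]] ℚ_[ℓ]) (hf : IsTateClass ρ χ m f) :
    f ∈ Submodule.span ℚ_[ℓ] (C n m) :=
  tate_of_tower hπ.pos hπ.gen hπ.weil hπ.nonsupersingular hK hA hC hF n m f hf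

end Pool.Agent.Results.MP_90d181_ag.IsolatedResidueDegrees
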