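import Pool.Agent.T6.H36.NF

/-!
# The Tate conjecture for abelian varieties over number fields with a large field of points of order `l`

Let `A` be an abelian variety of dimension `g` over a number field `K`, and `l` a prime number. If
`g = 2 ^ j` is a power of two, and the degree `[K(A[l]) : K]` is divisible by a prime number
`r > 2 g + 1` such that the order of `l` modulo `r` is `2 g`, then **the Tate conjecture is true for all
powers `A ^ n`**, in all codimensions, for all prime numbers `ℓ`, and over all finite extensions of
`K`: all Tate classes are linear combinations of intersections of divisors. For example (`g = 4`,
`l = 2`, `r = 17`): this holds for all four-dimensional abelian varieties over number fields such that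
`17` divides the degree of the field of the points of order two. For every `g = 2 ^ j` there are
infinitely many `l` with such `r` (each prime `r > 2 g + 1` with `r ≡ 1` modulo `2 g` occurs). There is no
assumption on the endomorphisms of `A` or on the places of bad reduction.

For an arbitrary dimension `g` there is the following condition on one element `s` of the Galois group
(`HasLargeOrders`): the eigenvalues of `s` on the group `A[l]` of the points of order `l` are
`x i ^ (l ^ k)`, `k < 2 m i`, with `x i` in the field with `l ^ (2 m i)` elements, where the exponents of two
in the numbers `m i` are pairwise distinct (for example: `g = ∑ m i` is the binary expansion of `g`), and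
for all divisors `d` of `2 m i` which do not divide `m i` (if `m i` is a power of two this is only `d =
2 m i`) the order of `x i` is divisible by a prime number `r > 2 g + 1` modulo which the order of `l` is
`d`. The group of symplectic similitudes of `A[l]` contains such elements for infinitely many `l`, for
each `g`. The case of the powers of two follows from this one by the theorem of Cauchy.

`V` is the rational `ℓ`-adic Tate module, with the action `ρ` of the absolute Galois group `GK K` of
`K`; `χ` is the cyclotomic character and `ω` the Weil pairing; `τ` is the action of the Galois
group on `A[l]` (`IsAbelianVariety`; the Frobenius elements `IsFrob v s` are those of the library,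
and the theorem of Chebotarev is proved there). The cohomology of `A ^ n` consists of the alternating
forms on `V ^ n`; a Tate class is a form that is fixed by a subgroup of finite index of the Galois
group. The classes of cycles of codimension `m` are given by a set `C n m`; what is used is that the
Tate classes of degree two are combinations of classes of divisors (Faltings) and that intersections of
divisors are algebraic cycles (`IsCycleClasses`).

The idea of the proof. By the theorem of Chebotarev there is a place `v` of good reduction with a
Frobenius element that acts on `A[l]` like `s`. Its characteristic polynomial `P` has integral
coefficients, and its roots modulo `l` are simple. So its roots `α` are in the ring of the Witt vectors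
of the algebraic closure of the field with `l` elements, and the Frobenius automorphism of this ring
permutes them with cycles of the lengths `2 m i`. The multiplicative relations between the numbers
`α / ᾱ` are a representation of this cyclic group, in which the irreducible representations
over `ℚ` have multiplicity one. If there are nontrivial relations then one irreducible
representation, with a character of order `d`, consists of relations. The products `u` of the `α` that
are roots of unity have orders prime to `r` for all prime numbers `r > 2 g + 1`: this follows from the
action of the Galois group of the number field of the `α`, which is generated by `2 g` numbers and so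
does not contain enough conjugates of the roots of unity of order `r` (`Ord.order_prime`). On the
other hand a computation with the residues of the `α` and with the cyclotomic polynomial of order `d`
modulo `r` shows that the order of such a `u` is divisible by `r` if the order of `x i` is.
So the numbers `α` satisfy no other relations than `α ᾱ = q` (`TM.main`), and the Tate classes
are generated in degree two.
-/

set_option autoImplicit false

namespace Pool.Agent.Results.MP_90d181_ag.LargeTorsionFields

open NumberField Pool.Agent.W401.Cheb Pool.Agent.H204R3.GP Pool.Agent.T6.H36.NF

/-- **The Tate conjecture for the powers of abelian varieties over number fields with a large field of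
points of order `l`.** -/
theorem result {K : Type} [Field K] [NumberField K] {ℓ l : ℕ} [Fact ℓ.Prime] [Fact l.Prime]
    {V M : Type} [AddCommGroup V] [Module ℚ_[ℓ] V] [FiniteDimensional ℚ_[ℓ] V]
    [AddCommGroup M] [Module (ZMod l) M] [FiniteDimensional (ZMod l) M]
    {ρ : Representation ℚ_[ℓ] (GK K) V} {χ : GK K →* ℚ_[ℓ]}
    {ω : V →ₗ[ℚ_[ℓ]] V →ₗ[ℚ_[ℓ]] ℚ_[ℓ]} {τ : Representation (ZMod l) (GK K) M}
    (hA : IsAbelianVariety ρ χ ω τ) (hτ : HasLargeTorsionField τ)
    {D : ∀ n : ℕ, Set ((Fin n → V) [⋀^Fin 2]→ₗ[ℚ_[ℓ]] ℚ_[ℓ])}
    {C : ∀ n m : ℕ, Set ((Fin n → V) [⋀^Fin m × Fin 2]→ₗ[ℚ_[ℓ]] ℚ_[ℓ])}
    (hC : IsCycleClasses ρ χ D C) (n m : ℕ) (f : (Fin n → V) [⋀^Fin m × Fin 2]→ₗ[ℚ_[ℓ]] ℚ_[ℓ])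
    (hf : IsTateClass ρ χ m f) : f ∈ Submodule.span ℚ_[ℓ] (C n m) :=
  tate hA hτ hC n m f hf

end Pool.Agent.Results.MP_90d181_ag.LargeTorsionFields
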