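import Pool.Agent.T6.H9.PA.Main

/-!
# The Tate conjecture, in its `L`-function form, on average for all powers of Jacobians

Owner helper9. Let `K` be a number field and let `J_i` be the Jacobians of the hyperelliptic curves
`y² = f_i(x)`, `f_i ∈ 𝓞_K[x]` monic of degree `2 g_i + 1` (`i` in a finite set), ordered by the size
of the coefficients. For an abelian variety `B` over `K` (or any pure motive) let `b_v` be the
normalised trace of Frobenius on a cohomology group `M` of `B`, a bounded function of `v`.

The cohomology of `B × ∏ J_i^{r_i}` is a direct sum of direct summands of the tensor products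
`M ⊗ ⨂_i H^1(J_i)^{⊗ j_i}`. By Tate's conjecture the order of the pole of the `L`-function of such a
product (twisted) at the edge of the region of convergence is the number of independent Tate
classes which are algebraic. If `J_i` has no extra endomorphisms then the invariants of
`H^1(J_i)^{⊗ j}`, `j ≤ 2 g_i + 1`, are spanned by the products of the classes of divisors (the
polarisation, put into the pairs of a perfect matching of the `j` factors), and there are `(j - 1)!!`
of them, which are linearly independent, for `j` even, and none for `j` odd. So the prediction is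
`∑_{q_v ≤ X} b_v ∏_i (a_v(f_i) / √q_v)^{j_i} log q_v = ∏_i (j_i - 1)!! ∑_{q_v ≤ X} b_v log q_v + o(X)`:
all the Tate classes come from `B` and from divisors on the `J_i × J_i`.

We show this with the error `X^{1/2+δ}`, for all exponents `j_i ≤ 2 g_i + 1` and all `X` up to a power
of the size of the coefficients, for almost all families `(f_i)`.

Proof: the values of a random `f_i` modulo `v` at `2 g_i + 1` points are independent, which yields the
moments up to the order `2 g_i + 1` of the character sums (those of sums of independent symmetric
variables, Gaussian up to `O(1/q_v)`); Weil's bound, which is proved in the library, bounds the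
variance; for different places the reductions are independent.
-/

set_option autoImplicit false

open NumberField IsDedekindDomain Polynomial

namespace Pool.Agent.Results.MP_90d181_ag.TatePowersOnAverage

open Pool.Agent.T6.H9.PowAvg Pool.Agent.T6.H9.PA

/-- **All powers of Jacobians, on average.** `K` is a number field with the integral basis `ω`,
`g_i` are genera, `b` is any bounded function of the primes, `δ > 0`. There is `L` such that for all
`N`, all boxes of coefficients `c` with sides at least `N`, and all `X₀ ≥ 1`, the proportion of the
families `(f_i)` of monic polynomials of degrees `2 g_i + 1` such that for some exponents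
`j_i ≤ 2 g_i + 1` and some `X ≥ X₀` with `X^4 ≤ N` the sum of
`b_v (∏_i (a_v(f_i) / √q_v)^{j_i} - ∏_i (j_i - 1)!!) log q_v` over the primes `v` of good reduction of
norm at most `X` exceeds `X^{1/2 + δ}` is at most `L X₀^{-δ}`. -/
theorem result {K : Type} [Field K] [NumberField K] {ι : Type} [Fintype ι]
    (ω : Module.Basis ι ℤ (𝓞 K)) {σ : Type} [Fintype σ] (g : σ → ℕ)
    (b : HeightOneSpectrum (𝓞 K) → ℝ) (A : ℝ) (hb : ∀ v, |b v| ≤ A) (δ : ℝ) (hδ : 0 < δ) :
    ∃ L : ℝ, 0 < L ∧ ∀ (N : ℕ) (B : Idx g × ι → ℕ), (∀ l, N ≤ B l) → ∀ X₀ : ℝ, 1 ≤ X₀ →
      ({c : Idx g → 𝓞 K | c ∈ Box ω B ∧ ∃ j : σ → ℕ, (∀ i, j i ≤ 2 * g i + 1) ∧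
        ∃ X : ℕ, X₀ ≤ X ∧ X ^ 4 ≤ N ∧
          (X : ℝ) ^ (1 / 2 + δ) < |∑ᶠ v ∈ goodPrimes (fun i => poly c i) X, b v *
            (∏ i, (trace (poly c i) v / √(Ideal.absNorm v.asIdeal : ℝ)) ^ j i -
              ∏ i, (matchings (j i) : ℝ)) *
            Real.log (Ideal.absNorm v.asIdeal)|}.ncard : ℝ) ≤
        L * X₀ ^ (-δ) * ((Box ω B).ncard : ℝ) :=
  main_all ω g hδ b hb

end Pool.Agent.Results.MP_90d181_ag.TatePowersOnAverage
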